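import Mathlib

/-!
# Threshold Prague dimension: definitions
-/

namespace Pool.Agent.Tpd

/-- `f : V → ℤ^d` represents `G` with threshold `t`: distinct `u`, `v` are adjacent if and only if
the Hamming distance of `f u` and `f v` is at least `t`. -/
def IsRep {V : Type*} (G : SimpleGraph V) (t d : ℕ) (f : V → Fin d → ℤ) : Prop :=
  ∀ u v : V, u ≠ v → (G.Adj u v ↔ t ≤ hammingDist (f u) (f v))

/-- Some dimension `d` and some map `f : V → ℤ^d` represent `G` with threshold `t`. -/
def HasRep {V : Type*} (G : SimpleGraph V) (t : ℕ) : Prop :=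
  ∃ (d : ℕ) (f : V → Fin d → ℤ), IsRep G t d f

/-- The threshold Prague dimension: the least `t` for which `HasRep G t`. -/
noncomputable def tpd {V : Type*} (G : SimpleGraph V) : ℕ := sInf {t | HasRep G t}

/-- The maximum degree of `G` is `Δ`. -/
def HasMaxDegree {V : Type*} (G : SimpleGraph V) (Δ : ℕ) : Prop :=
  (∀ v, (G.neighborSet v).ncard ≤ Δ) ∧ ∃ v, (G.neighborSet v).ncard = Δ

/-- `T n Δ`: the maximum of `tpd G` over the graphs `G` on `n` vertices with maximum degree `Δ`. -/
noncomputable def T (n Δ : ℕ) : ℕ :=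
  sSup {s | ∃ G : SimpleGraph (Fin n), HasMaxDegree G Δ ∧ tpd G = s}

end Pool.Agent.Tpd
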