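import Mathlib
import Pool.Agent.Tpd.Defs

/-!
# One-sided hashing of a threshold representation
-/

namespace Pool.Agent.Tpd

open Finset

theorem card_eq_mul {ι Q : Type*} [Fintype ι] [DecidableEq ι] [Fintype Q] [DecidableEq Q]
    {x y : ι} (hxy : x ≠ y) :
    (univ.filter (fun h : ι → Q => h x = h y)).card * Fintype.card Q ≤
      Fintype.card (ι → Q) := by
  rw [← Finset.card_univ (α := Q), ← Finset.card_product, ← Finset.card_univ (α := ι → Q)]
  refine Finset.card_le_card_of_injOn (fun p => Function.update p.1 x p.2)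
    (fun _ _ => Finset.mem_univ _) ?_
  rintro ⟨h, c⟩ h1 ⟨h', c'⟩ h2 he
  simp only [coe_product, coe_filter, mem_univ, true_and, coe_univ, Set.mem_prod,
    Set.mem_ofPred_eq, Set.mem_univ, and_true] at h1 h2
  have he' : Function.update h x c = Function.update h' x c' := he
  have hc : c = c' := by
    have := congrFun he' x
    simpa using this
  subst hc
  have hh : h = h' := by
    have hy : h y = h' y := by
      have := congrFun he' y
      rwa [Function.update_of_ne hxy.symm, Function.update_of_ne hxy.symm] at this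
    funext z
    by_cases hz : z = x
    · subst hz
      rw [h1, h2, hy]
    · have := congrFun he' z
      rwa [Function.update_of_ne hz, Function.update_of_ne hz] at this
  rw [hh]

theorem exists_hash {ι Q E : Type*} [Fintype ι] [DecidableEq ι] [Fintype Q] [DecidableEq Q]
    [Nonempty Q] [Fintype E] [DecidableEq E]
    (P : E → Finset (ι × ι)) (p : ℕ) (hP : ∀ e, (P e).card ≤ p)
    (hne : ∀ e, ∀ z ∈ P e, z.1 ≠ z.2) (hq : 8 * p ≤ Fintype.card Q) :
    ∃ h : ι → Q,
      8 * (univ.filter (fun e : E => ∃ z ∈ P e, h z.1 = h z.2)).card ≤ Fintype.card E := by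
  classical
  by_contra hcon
  push Not at hcon
  have h1 : Fintype.card (ι → Q) * (Fintype.card E + 1) ≤
      ∑ h : ι → Q, 8 * (univ.filter (fun e : E => ∃ z ∈ P e, h z.1 = h z.2)).card := by
    calc Fintype.card (ι → Q) * (Fintype.card E + 1)
        = ∑ _h : ι → Q, (Fintype.card E + 1) := by
          rw [Finset.sum_const, Finset.card_univ, smul_eq_mul]
      _ ≤ _ := Finset.sum_le_sum (fun h _ => hcon h)
  have h2 : ∑ h : ι → Q, (univ.filter (fun e : E => ∃ z ∈ P e, h z.1 = h z.2)).card ≤
      ∑ e : E, ∑ z ∈ P e, (univ.filter (fun h : ι → Q => h z.1 = h z.2)).card := by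
    have h3 : ∀ h : ι → Q, (univ.filter (fun e : E => ∃ z ∈ P e, h z.1 = h z.2)).card ≤
        ∑ e : E, ∑ z ∈ P e, (if h z.1 = h z.2 then 1 else 0) := by
      intro h
      rw [Finset.card_filter]
      refine Finset.sum_le_sum (fun e _ => ?_)
      split_ifs with hz
      · obtain ⟨z, hz1, hz2⟩ := hz
        calc 1 = (if h z.1 = h z.2 then 1 else 0) := by rw [if_pos hz2]
          _ ≤ _ := Finset.single_le_sum (f := fun z : ι × ι => if h z.1 = h z.2 then 1 else 0)
              (fun _ _ => Nat.zero_le _) hz1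
      · exact Nat.zero_le _
    calc ∑ h : ι → Q, (univ.filter (fun e : E => ∃ z ∈ P e, h z.1 = h z.2)).card
        ≤ ∑ h : ι → Q, ∑ e : E, ∑ z ∈ P e, (if h z.1 = h z.2 then 1 else 0) :=
          Finset.sum_le_sum (fun h _ => h3 h)
      _ = ∑ e : E, ∑ z ∈ P e, ∑ h : ι → Q, (if h z.1 = h z.2 then 1 else 0) := by
          rw [Finset.sum_comm]
          refine Finset.sum_congr rfl (fun e _ => ?_)
          rw [Finset.sum_comm]
      _ = _ := by
          refine Finset.sum_congr rfl (fun e _ => Finset.sum_congr rfl (fun z _ => ?_))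
          rw [Finset.card_filter]
  have h4 : (∑ e : E, ∑ z ∈ P e, (univ.filter (fun h : ι → Q => h z.1 = h z.2)).card) *
      Fintype.card Q ≤ Fintype.card E * (p * Fintype.card (ι → Q)) := by
    rw [Finset.sum_mul]
    calc ∑ e : E, (∑ z ∈ P e, (univ.filter (fun h : ι → Q => h z.1 = h z.2)).card) *
          Fintype.card Q ≤ ∑ _e : E, p * Fintype.card (ι → Q) := by
          refine Finset.sum_le_sum (fun e _ => ?_)
          rw [Finset.sum_mul]
          calc ∑ z ∈ P e, (univ.filter (fun h : ι → Q => h z.1 = h z.2)).card * Fintype.card Q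
              ≤ ∑ _z ∈ P e, Fintype.card (ι → Q) :=
                Finset.sum_le_sum (fun z hz => card_eq_mul (hne e z hz))
            _ = (P e).card * Fintype.card (ι → Q) := by rw [Finset.sum_const, smul_eq_mul]
            _ ≤ _ := Nat.mul_le_mul_right _ (hP e)
      _ = _ := by rw [Finset.sum_const, Finset.card_univ, smul_eq_mul]
  have hN : 0 < Fintype.card (ι → Q) := Fintype.card_pos
  have hQ : 0 < Fintype.card Q := Fintype.card_pos
  rw [← Finset.mul_sum] at h1
  set N := Fintype.card (ι → Q)
  set S := ∑ h : ι → Q, (univ.filter (fun e : E => ∃ z ∈ P e, h z.1 = h z.2)).card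
  set q := Fintype.card Q
  set ne := Fintype.card E
  have h5 : N * (ne + 1) * q ≤ 8 * (ne * (p * N)) := by
    calc N * (ne + 1) * q ≤ (8 * S) * q := Nat.mul_le_mul_right _ h1
      _ = 8 * (S * q) := by ring
      _ ≤ 8 * ((∑ e : E, ∑ z ∈ P e, (univ.filter (fun h : ι → Q => h z.1 = h z.2)).card) * q) :=
          Nat.mul_le_mul_left _ (Nat.mul_le_mul_right _ h2)
      _ ≤ _ := Nat.mul_le_mul_left _ h4
  have h6 : 8 * (ne * (p * N)) ≤ N * ne * q := by
    calc 8 * (ne * (p * N)) = N * ne * (8 * p) := by ring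
      _ ≤ _ := Nat.mul_le_mul_left _ hq
  have h7 : N * (ne + 1) * q = N * ne * q + N * q := by ring
  have h8 : 0 < N * q := Nat.mul_pos hN hQ
  omega

section Code

variable {V Q : Type*} [Nonempty V] [AddCommGroup Q] [DecidableEq Q] {d : ℕ}

/-- A canonical vertex whose `i`-th coordinate is `a`. -/
noncomputable def rp (f : V → Fin d → ℤ) (i : Fin d) (a : ℤ) : V :=
  Function.invFun (fun w => f w i) a

theorem rp_spec (f : V → Fin d → ℤ) (i : Fin d) (w : V) : f (rp f i (f w i)) i = f w i :=
  Function.invFun_eq (f := fun w => f w i) ⟨w, rfl⟩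

theorem rp_ne {f : V → Fin d → ℤ} {i : Fin d} {u v : V} (h : f u i ≠ f v i) :
    rp f i (f u i) ≠ rp f i (f v i) := by
  intro he
  apply h
  rw [← rp_spec f i u, he, rp_spec f i v]

/-- The hashed code of the vertex `w`. -/
noncomputable def code (f : V → Fin d → ℤ) (v0 : V) (h : Fin d ⊕ Fin d × V → Q) (w : V)
    (j : Q) : Q :=
  ∑ i ∈ univ.filter (fun i => h (Sum.inl i) = j),
    (h (Sum.inr (i, rp f i (f w i))) - h (Sum.inr (i, rp f i (f v0 i))))

theorem code_self (f : V → Fin d → ℤ) (v0 : V) (h : Fin d ⊕ Fin d × V → Q) (j : Q) :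
    code f v0 h v0 j = 0 := by
  unfold code
  exact Finset.sum_eq_zero (fun i _ => sub_self _)

theorem code_ne {f : V → Fin d → ℤ} {v0 : V} {h : Fin d ⊕ Fin d × V → Q} {u v : V} {j : Q}
    (hj : code f v0 h u j ≠ code f v0 h v j) : ∃ i, h (Sum.inl i) = j ∧ f u i ≠ f v i := by
  by_contra hcon
  push Not at hcon
  apply hj
  unfold code
  refine Finset.sum_congr rfl (fun i hi => ?_)
  rw [hcon i (Finset.mem_filter.1 hi).2]

theorem code_dist_le [Fintype Q] (f : V → Fin d → ℤ) (v0 : V) (h : Fin d ⊕ Fin d × V → Q)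
    (u v : V) : hammingDist (code f v0 h u) (code f v0 h v) ≤ hammingDist (f u) (f v) := by
  unfold hammingDist
  calc (univ.filter (fun j => code f v0 h u j ≠ code f v0 h v j)).card
      ≤ ((univ.filter (fun i => f u i ≠ f v i)).image (fun i => h (Sum.inl i))).card := by
        refine Finset.card_le_card (fun j hj => ?_)
        obtain ⟨i, hi1, hi2⟩ := code_ne (Finset.mem_filter.1 hj).2
        exact Finset.mem_image.2 ⟨i, Finset.mem_filter.2 ⟨Finset.mem_univ _, hi2⟩, hi1⟩
    _ ≤ _ := Finset.card_image_le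

theorem code_dist_ge [Fintype Q] {f : V → Fin d → ℤ} {v0 : V} {h : Fin d ⊕ Fin d × V → Q}
    {u v : V}
    (h1 : ∀ i i', f u i ≠ f v i → f u i' ≠ f v i' → i ≠ i' → h (Sum.inl i) ≠ h (Sum.inl i'))
    (h2 : ∀ i, f u i ≠ f v i →
      h (Sum.inr (i, rp f i (f u i))) ≠ h (Sum.inr (i, rp f i (f v i)))) :
    hammingDist (f u) (f v) ≤ hammingDist (code f v0 h u) (code f v0 h v) := by
  unfold hammingDist
  refine Finset.card_le_card_of_injOn (fun i => h (Sum.inl i)) ?_ ?_
  · intro i hi
    have hi' : f u i ≠ f v i := by simpa using hi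
    simp only [coe_filter, mem_univ, true_and, Set.mem_ofPred_eq]
    intro he
    have h3 : code f v0 h u (h (Sum.inl i)) - code f v0 h v (h (Sum.inl i)) =
        h (Sum.inr (i, rp f i (f u i))) - h (Sum.inr (i, rp f i (f v i))) := by
      unfold code
      rw [← Finset.sum_sub_distrib]
      rw [Finset.sum_eq_single i]
      · abel
      · intro i' hi'' hne
        have hh : h (Sum.inl i') = h (Sum.inl i) := (Finset.mem_filter.1 hi'').2
        have : f u i' = f v i' := by
          by_contra hcon
          exact h1 i' i hcon hi' hne hh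
        rw [this]
        abel
      · intro hcon
        exact (hcon (by simp)).elim
    rw [he, sub_self] at h3
    exact h2 i hi' (sub_eq_zero.1 h3.symm)
  · intro i hi i' hi' he
    have hi1 : f u i ≠ f v i := by simpa using hi
    have hi2 : f u i' ≠ f v i' := by simpa using hi'
    by_contra hne
    exact h1 i i' hi1 hi2 hne he

end Code

theorem exists_code {V : Type*} [Fintype V] [DecidableEq V] {G : SimpleGraph V} {t d : ℕ}
    {f : V → Fin d → ℤ} (hf : IsRep G t d f) (v0 : V) (hv0 : ∀ v, ¬ G.Adj v v0)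
    {E : Type*} [Fintype E] [DecidableEq E] (u v : E → V) (huv : ∀ e, G.Adj (u e) (v e))
    {Q : Type*} [Fintype Q] [DecidableEq Q] [AddCommGroup Q]
    (hQ : 32 * (t - 1) ^ 2 ≤ Fintype.card Q) :
    ∃ F : V → Q → Q,
      (∀ w, (univ.filter (fun j => F w j ≠ 0)).card ≤ t - 1) ∧
      (∀ x y, x ≠ y → ¬ G.Adj x y → hammingDist (F x) (F y) < t) ∧
      8 * (univ.filter (fun e => hammingDist (F (u e)) (F (v e)) < t)).card ≤
        Fintype.card E := by
  classical
  have : Nonempty V := ⟨v0⟩
  -- distances
  have hd0 : ∀ w, hammingDist (f w) (f v0) ≤ t - 1 := by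
    intro w
    by_cases hw : w = v0
    · subst hw
      simp
    · have := (hf w v0 hw).not.1 (hv0 w)
      omega
  have hde : ∀ e, hammingDist (f (u e)) (f (v e)) ≤ 2 * (t - 1) := by
    intro e
    have h1 := hammingDist_triangle (f (u e)) (f v0) (f (v e))
    have h2 := hd0 (u e)
    have h3 := hd0 (v e)
    rw [hammingDist_comm] at h3
    omega
  set D : E → Finset (Fin d) := fun e => univ.filter (fun i => f (u e) i ≠ f (v e) i) with hD
  have hDc : ∀ e, (D e).card ≤ 2 * (t - 1) := fun e => hde e
  set P : E → Finset ((Fin d ⊕ Fin d × V) × (Fin d ⊕ Fin d × V)) := fun e =>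
    (D e).offDiag.image (fun z => (Sum.inl z.1, Sum.inl z.2)) ∪
    (D e).image (fun i => (Sum.inr (i, rp f i (f (u e) i)), Sum.inr (i, rp f i (f (v e) i))))
    with hPdef
  obtain ⟨h, hh⟩ := exists_hash (Q := Q) P (4 * (t - 1) ^ 2) (by
      intro e
      calc (P e).card ≤ ((D e).card * (D e).card - (D e).card) + (D e).card := by
            refine (Finset.card_union_le _ _).trans ?_
            refine Nat.add_le_add ?_ Finset.card_image_le
            refine Finset.card_image_le.trans ?_
            rw [Finset.offDiag_card]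
        _ = (D e).card * (D e).card := Nat.sub_add_cancel (Nat.le_mul_self _)
        _ ≤ (2 * (t - 1)) * (2 * (t - 1)) := Nat.mul_le_mul (hDc e) (hDc e)
        _ = _ := by ring)
    (by
      intro e z hz
      rcases Finset.mem_union.1 hz with hz | hz
      · obtain ⟨w, hw, rfl⟩ := Finset.mem_image.1 hz
        have := (Finset.mem_offDiag.1 hw).2.2
        intro he
        exact this (Sum.inl_injective he)
      · obtain ⟨i, hi, rfl⟩ := Finset.mem_image.1 hz
        intro he
        have h1 := Sum.inr_injective he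
        have h2 := (Prod.mk.inj h1).2
        exact rp_ne (Finset.mem_filter.1 hi).2 h2)
    (by
      calc 8 * (4 * (t - 1) ^ 2) = 32 * (t - 1) ^ 2 := by ring
        _ ≤ _ := hQ)
  refine ⟨code f v0 h, ?_, ?_, ?_⟩
  · intro w
    have h1 := code_dist_le f v0 h w v0
    have h2 := hd0 w
    have h3 : (univ.filter (fun j => code f v0 h w j ≠ 0)).card =
        hammingDist (code f v0 h w) (code f v0 h v0) := by
      unfold hammingDist
      congr 1
      ext j
      simp only [mem_filter, mem_univ, true_and]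
      rw [code_self]
    omega
  · intro x y hxy hadj
    have h1 := (hf x y hxy).not.1 hadj
    have h2 := code_dist_le f v0 h x y
    omega
  · refine le_trans (Nat.mul_le_mul_left _ (Finset.card_le_card ?_)) hh
    intro e he
    have he' := (Finset.mem_filter.1 he).2
    refine Finset.mem_filter.2 ⟨Finset.mem_univ _, ?_⟩
    by_contra hcon
    push Not at hcon
    have hne : u e ≠ v e := (huv e).ne
    have h1 := (hf _ _ hne).1 (huv e)
    have h2 : hammingDist (f (u e)) (f (v e)) ≤
        hammingDist (code f v0 h (u e)) (code f v0 h (v e)) := by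
      apply code_dist_ge
      · intro i i' hi hi' hii
        exact hcon (Sum.inl i, Sum.inl i') (Finset.mem_union_left _ (Finset.mem_image.2
          ⟨(i, i'), Finset.mem_offDiag.2 ⟨Finset.mem_filter.2 ⟨Finset.mem_univ _, hi⟩,
            Finset.mem_filter.2 ⟨Finset.mem_univ _, hi'⟩, hii⟩, rfl⟩))
      · intro i hi
        exact hcon (Sum.inr (i, rp f i (f (u e) i)), Sum.inr (i, rp f i (f (v e) i)))
          (Finset.mem_union_right _ (Finset.mem_image.2
            ⟨i, Finset.mem_filter.2 ⟨Finset.mem_univ _, hi⟩, rfl⟩))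
    omega

end Pool.Agent.Tpd
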