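import Mathlib
import Pool.Agent.Tpd.Defs
import Pool.Agent.Tpd.Hash

/-!
# Counting: a family of bounded-degree graphs with large threshold Prague dimension
-/

namespace Pool.Agent.Tpd

open Finset

/-! ### Enumerations of small sets -/

/-- A list of the elements of `S`, indexed by `Fin s`. -/
noncomputable def enum {α : Type*} [Inhabited α] (s : ℕ) (S : Finset α) : Fin s → α :=
  fun k => S.toList.getD k default

theorem exists_enum {α : Type*} [Inhabited α] {s : ℕ} {S : Finset α} (hS : S.card ≤ s) {a : α}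
    (ha : a ∈ S) : ∃ k, enum s S k = a := by
  have h1 : a ∈ S.toList := Finset.mem_toList.2 ha
  obtain ⟨n, hn, he⟩ := List.getElem_of_mem h1
  have hlen : S.toList.length = S.card := Finset.length_toList S
  refine ⟨⟨n, by omega⟩, ?_⟩
  unfold enum
  rw [List.getD_eq_getElem _ _ hn, he]

/-- The code of a function with small support. -/
noncomputable def sc {Q : Type*} [Fintype Q] [DecidableEq Q] [AddCommGroup Q] [Inhabited Q]
    (s : ℕ) (g : Q → Q) : Fin s → Q × Q :=
  fun k => (enum s (univ.filter (fun j => g j ≠ 0)) k,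
    g (enum s (univ.filter (fun j => g j ≠ 0)) k))

theorem sc_inj {Q : Type*} [Fintype Q] [DecidableEq Q] [AddCommGroup Q] [Inhabited Q] {s : ℕ}
    {g g' : Q → Q} (hg : (univ.filter (fun j => g j ≠ 0)).card ≤ s)
    (hg' : (univ.filter (fun j => g' j ≠ 0)).card ≤ s) (h : sc s g = sc s g') : g = g' := by
  have key : ∀ {f f' : Q → Q}, (univ.filter (fun j => f j ≠ 0)).card ≤ s → sc s f = sc s f' →
      ∀ j, f j ≠ 0 → f' j = f j := by
    intro f f' hf he j hj
    obtain ⟨k, hk⟩ := exists_enum hf (a := j) (Finset.mem_filter.2 ⟨Finset.mem_univ _, hj⟩)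
    have h1 := congrFun he k
    unfold sc at h1
    rw [hk] at h1
    have h2 := Prod.mk.inj h1
    rw [← h2.1] at h2
    exact h2.2.symm
  funext j
  by_cases h1 : g j = 0
  · by_cases h2 : g' j = 0
    · rw [h1, h2]
    · exact key hg' h.symm j h2
  · exact (key hg h j h1).symm

/-! ### The family of graphs -/

/-- The vertex set: two copies of `[k] × [m]` and a set of isolated vertices. -/
abbrev VT (k m : ℕ) (R : Type) : Type := (Fin k × Fin m) ⊕ ((Fin k × Fin m) ⊕ R)

/-- Adjacency: `(i, x)` on the left and `(j, y)` on the right are adjacent iff `σ i j x = y`. -/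
def adjP {k m : ℕ} {R : Type} (σ : Fin k → Fin k → Equiv.Perm (Fin m)) :
    VT k m R → VT k m R → Prop
  | Sum.inl a, Sum.inr (Sum.inl b) => σ a.1 b.1 a.2 = b.2
  | Sum.inr (Sum.inl b), Sum.inl a => σ a.1 b.1 a.2 = b.2
  | Sum.inl _, Sum.inl _ => False
  | Sum.inl _, Sum.inr (Sum.inr _) => False
  | Sum.inr (Sum.inl _), Sum.inr _ => False
  | Sum.inr (Sum.inr _), _ => False

/-- The graph of the family given by `σ`. -/
def Gr {k m : ℕ} {R : Type} (σ : Fin k → Fin k → Equiv.Perm (Fin m)) :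
    SimpleGraph (VT k m R) where
  Adj := adjP σ
  symm := ⟨by
    rintro (a | b | r) (a' | b' | r') h
    · exact h
    · exact h
    · exact h
    · exact h
    · exact h
    · exact h
    · exact h
    · exact h
    · exact h⟩
  loopless := ⟨by
    rintro (a | b | r) h
    · exact h
    · exact h
    · exact h⟩

/-- The left vertex of a slot. -/
def slotL {k m : ℕ} {R : Type} (e : Fin k × Fin k × Fin m) : VT k m R := Sum.inl (e.1, e.2.2)

/-- The right vertex of a slot with value `y`. -/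
def slotR {k m : ℕ} {R : Type} (e : Fin k × Fin k × Fin m) (y : Fin m) : VT k m R :=
  Sum.inr (Sum.inl (e.2.1, y))

theorem adj_slot {k m : ℕ} {R : Type} (σ : Fin k → Fin k → Equiv.Perm (Fin m))
    (e : Fin k × Fin k × Fin m) (y : Fin m) :
    (Gr (R := R) σ).Adj (slotL e) (slotR e y) ↔ σ e.1 e.2.1 e.2.2 = y := Iff.rfl

theorem count {k m : ℕ} [NeZero k] [NeZero m] {R : Type} [Fintype R] [DecidableEq R] (r0 : R)
    {Q : Type} [Fintype Q] [DecidableEq Q] [AddCommGroup Q] (t : ℕ)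
    (hQ : 32 * (t - 1) ^ 2 ≤ Fintype.card Q)
    (H : ∀ σ : Fin k → Fin k → Equiv.Perm (Fin m), HasRep (Gr (R := R) σ) t) :
    ((Nat.factorial m) ^ k) ^ k ≤
      ((Fintype.card Q * Fintype.card Q) ^ (t - 1)) ^ (k * m + k * m) *
        (2 ^ (k * (k * m)) * m ^ (k * (k * m) / 8)) := by
  classical
  have : Inhabited Q := ⟨0⟩
  have hex : ∀ σ : Fin k → Fin k → Equiv.Perm (Fin m), ∃ F : VT k m R → Q → Q,
      (∀ w, (univ.filter (fun j => F w j ≠ 0)).card ≤ t - 1) ∧
      (∀ x y, x ≠ y → ¬ (Gr (R := R) σ).Adj x y → hammingDist (F x) (F y) < t) ∧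
      8 * (univ.filter (fun e : Fin k × Fin k × Fin m =>
        hammingDist (F (slotL e)) (F (slotR e (σ e.1 e.2.1 e.2.2))) < t)).card ≤
        Fintype.card (Fin k × Fin k × Fin m) := by
    intro σ
    obtain ⟨d, f, hf⟩ := H σ
    refine exists_code hf (Sum.inr (Sum.inr r0)) ?_ _ _ (fun e => (adj_slot σ e _).2 rfl) hQ
    rintro (a | b | r) h
    · exact h
    · exact h
    · exact h
  choose F hF1 hF2 hF3 using hex
  set B : (Fin k → Fin k → Equiv.Perm (Fin m)) → Finset (Fin k × Fin k × Fin m) := fun σ =>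
    univ.filter (fun e : Fin k × Fin k × Fin m =>
        hammingDist (F σ (slotL e)) (F σ (slotR e (σ e.1 e.2.1 e.2.2))) < t) with hB
  have hcard : Fintype.card (Fin k × Fin k × Fin m) = k * (k * m) := by simp
  have hBc : ∀ σ, (B σ).card ≤ k * (k * m) / 8 := by
    intro σ
    have := hF3 σ
    rw [hcard] at this
    have h2 : 8 * (B σ).card ≤ k * (k * m) := this
    omega
  set W : Type := (Fin k × Fin m) ⊕ (Fin k × Fin m) with hW
  set emb : W → VT k m R := fun w => match w with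
    | Sum.inl a => Sum.inl a
    | Sum.inr b => Sum.inr (Sum.inl b) with hemb
  set Φ : (Fin k → Fin k → Equiv.Perm (Fin m)) →
      (W → (Fin (t - 1) → Q × Q)) × (Finset (Fin k × Fin k × Fin m) ×
        (Fin (k * (k * m) / 8) → Fin m)) := fun σ =>
    (fun w => sc (t - 1) (F σ (emb w)), (B σ, fun c =>
      σ (enum _ (B σ) c).1 (enum _ (B σ) c).2.1 (enum _ (B σ) c).2.2)) with hΦ
  have hinj : Function.Injective Φ := by
    intro σ σ' he
    have h1 := congrArg Prod.fst he
    have h2 := congrArg (fun z => z.2.1) he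
    have h3 := congrArg (fun z => z.2.2) he
    simp only [hΦ] at h1 h2 h3
    have hcode : ∀ w : W, F σ (emb w) = F σ' (emb w) := fun w =>
      sc_inj (hF1 σ _) (hF1 σ' _) (congrFun h1 w)
    funext i j
    apply Equiv.ext
    intro x
    by_cases hx : ((i, j, x) : Fin k × Fin k × Fin m) ∈ B σ
    · obtain ⟨c, hc⟩ := exists_enum (hBc σ) hx
      have h4 := congrFun h3 c
      rw [← h2, hc] at h4
      exact h4
    · have hx1 : ¬ hammingDist (F σ (slotL (i, j, x))) (F σ (slotR (i, j, x) (σ i j x))) < t := by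
        intro hcon
        exact hx (Finset.mem_filter.2 ⟨Finset.mem_univ _, hcon⟩)
      by_contra hne
      have h5 := hF2 σ' (slotL (i, j, x)) (slotR (i, j, x) (σ i j x)) (by
          intro hcon
          exact Sum.inl_ne_inr hcon) (by
          rw [adj_slot]
          exact fun hcon => hne hcon.symm)
      have h6 : F σ (slotL (i, j, x)) = F σ' (slotL (i, j, x)) := hcode (Sum.inl (i, x))
      have h7 : F σ (slotR (i, j, x) (σ i j x)) = F σ' (slotR (i, j, x) (σ i j x)) :=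
        hcode (Sum.inr (j, σ i j x))
      rw [← h6, ← h7] at h5
      exact hx1 h5
  have hle := Fintype.card_le_of_injective Φ hinj
  have hl : Fintype.card (Fin k → Fin k → Equiv.Perm (Fin m)) = ((Nat.factorial m) ^ k) ^ k := by
    simp [Fintype.card_perm]
  have hr : Fintype.card ((W → (Fin (t - 1) → Q × Q)) × (Finset (Fin k × Fin k × Fin m) ×
        (Fin (k * (k * m) / 8) → Fin m))) =
      ((Fintype.card Q * Fintype.card Q) ^ (t - 1)) ^ (k * m + k * m) *
        (2 ^ (k * (k * m)) * m ^ (k * (k * m) / 8)) := by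
    simp [hW]
  rw [hl, hr] at hle
  exact hle

/-- The numerical consequence: `(3a - 12) k ≤ 32 (t - 1) (7 + 2 log₂ t)` with `m = 2^a`. -/
theorem count_num {k a : ℕ} [NeZero k] {R : Type} [Fintype R] [DecidableEq R] (r0 : R)
    (ha : 1 ≤ a) (t : ℕ) (ht : 1 ≤ t)
    (H : ∀ σ : Fin k → Fin k → Equiv.Perm (Fin (2 ^ a)), HasRep (Gr (R := R) σ) t) :
    3 * a * k ≤ 12 * k + 32 * (t - 1) * (7 + 2 * Nat.log 2 t) := by
  set c := 7 + 2 * Nat.log 2 t with hc
  have : NeZero (2 ^ c) := ⟨by positivity⟩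
  have hQc : Fintype.card (ZMod (2 ^ c)) = 2 ^ c := ZMod.card _
  have ht2 : t < 2 ^ (Nat.log 2 t + 1) := Nat.lt_pow_succ_log_self (by norm_num) t
  have hQ : 32 * (t - 1) ^ 2 ≤ Fintype.card (ZMod (2 ^ c)) := by
    rw [hQc]
    have h1 : (t - 1) ^ 2 ≤ (2 ^ (Nat.log 2 t + 1)) ^ 2 := Nat.pow_le_pow_left (by omega) 2
    calc 32 * (t - 1) ^ 2 ≤ 32 * (2 ^ (Nat.log 2 t + 1)) ^ 2 := Nat.mul_le_mul_left _ h1
      _ = 2 ^ c := by
        rw [hc, show (32 : ℕ) = 2 ^ 5 by norm_num, ← pow_mul, ← pow_add]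
        congr 1
        ring
  have h := count (k := k) (m := 2 ^ a) r0 (Q := ZMod (2 ^ c)) t hQ H
  rw [hQc] at h
  obtain ⟨a', rfl⟩ : ∃ a', a = a' + 1 := ⟨a - 1, by omega⟩
  have hfac : (2 ^ a') ^ (2 ^ a') ≤ Nat.factorial (2 ^ (a' + 1)) := by
    have h1 := Nat.factorial_mul_pow_le_factorial (m := 2 ^ a') (n := 2 ^ a')
    have h2 : 2 ^ a' + 2 ^ a' = 2 ^ (a' + 1) := by ring
    rw [h2] at h1
    calc (2 ^ a') ^ (2 ^ a') ≤ (2 ^ a' + 1) ^ (2 ^ a') :=
          Nat.pow_le_pow_left (Nat.le_succ _) _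
      _ = 1 * (2 ^ a' + 1) ^ (2 ^ a') := (one_mul _).symm
      _ ≤ Nat.factorial (2 ^ a') * (2 ^ a' + 1) ^ (2 ^ a') :=
          Nat.mul_le_mul_right _ (Nat.factorial_pos _)
      _ ≤ _ := h1
  have h2 : ((((2 ^ a') ^ (2 ^ a')) ^ k) ^ k : ℕ) ≤
      ((2 ^ c * 2 ^ c) ^ (t - 1)) ^ (k * 2 ^ (a' + 1) + k * 2 ^ (a' + 1)) *
        (2 ^ (k * (k * 2 ^ (a' + 1))) * (2 ^ (a' + 1)) ^ (k * (k * 2 ^ (a' + 1)) / 8)) :=
    le_trans (Nat.pow_le_pow_left (Nat.pow_le_pow_left hfac k) k) h
  rw [← pow_mul, ← pow_mul, ← pow_mul, ← pow_add, ← pow_mul, ← pow_mul, ← pow_mul, ← pow_add,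
    ← pow_add] at h2
  have h3 := (Nat.pow_le_pow_iff_right (by norm_num : 1 < 2)).1 h2
  set r := 2 ^ a' with hr
  have hr0 : 0 < r := by positivity
  have hr1 : 2 ^ (a' + 1) = 2 * r := by rw [hr]; ring
  rw [hr1] at h3
  have h4 : 8 * ((a' + 1) * (k * (k * (2 * r)) / 8)) ≤ (a' + 1) * (k * (k * (2 * r))) := by
    calc 8 * ((a' + 1) * (k * (k * (2 * r)) / 8)) = (a' + 1) * (k * (k * (2 * r)) / 8 * 8) := by
          ring
      _ ≤ _ := Nat.mul_le_mul_left _ (Nat.div_mul_le_self _ _)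
  have hk : 0 < k := Nat.pos_of_ne_zero (NeZero.ne k)
  have h5 : (2 * r * k) * (3 * (a' + 1) * k) ≤ (2 * r * k) * (12 * k + 32 * (t - 1) * c) := by
    nlinarith [h3, h4]
  exact Nat.le_of_mul_le_mul_left h5 (by positivity)

end Pool.Agent.Tpd
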