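import Mathlib
import Pool.Agent.Tpd.Defs
import Pool.Agent.Tpd.Hash
import Pool.Agent.Tpd.Count

/-!
# The lower bound for `T n Δ`
-/

namespace Pool.Agent.Tpd

open Finset

/-! ### General facts on representations -/

theorem hammingDist_cons {d : ℕ} (a b : ℤ) (x y : Fin d → ℤ) (hab : a ≠ b) :
    hammingDist (Fin.cons a x : Fin (d + 1) → ℤ) (Fin.cons b y) = hammingDist x y + 1 := by
  unfold hammingDist
  rw [Finset.card_filter, Finset.card_filter, Fin.sum_univ_succ]
  simp [hab, add_comm]

theorem HasRep.succ {V : Type*} [Finite V] {G : SimpleGraph V} {t : ℕ} (h : HasRep G t) :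
    HasRep G (t + 1) := by
  obtain ⟨d, f, hf⟩ := h
  obtain ⟨N, ⟨e⟩⟩ := Finite.exists_equiv_fin V
  refine ⟨d + 1, fun v => Fin.cons (((e v : Fin N) : ℕ) : ℤ) (f v), ?_⟩
  intro u v huv
  have hne : (((e u : Fin N) : ℕ) : ℤ) ≠ (((e v : Fin N) : ℕ) : ℤ) := by
    intro h
    apply huv
    apply e.injective
    apply Fin.ext
    exact_mod_cast h
  rw [hammingDist_cons _ _ _ _ hne, hf u v huv]
  omega

theorem HasRep.mono {V : Type*} [Finite V] {G : SimpleGraph V} {s t : ℕ} (hst : s ≤ t)
    (h : HasRep G s) : HasRep G t := by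
  induction t, hst using Nat.le_induction with
  | base => exact h
  | succ n _ ih => exact ih.succ

theorem exists_hasRep {V : Type*} [Finite V] (G : SimpleGraph V) : ∃ t, HasRep G t := by
  classical
  obtain ⟨N, ⟨idx⟩⟩ := Finite.exists_equiv_fin V
  obtain ⟨d, ⟨e⟩⟩ := Finite.exists_equiv_fin (V × V)
  refine ⟨d, d, fun w i => if ¬ G.Adj (e.symm i).1 (e.symm i).2 ∧
    (w = (e.symm i).1 ∨ w = (e.symm i).2) then 0 else (((idx w : Fin N) : ℕ) : ℤ) + 1, ?_⟩
  intro u v huv
  constructor
  · intro hadj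
    unfold hammingDist
    rw [Finset.filter_true_of_mem, Finset.card_univ, Fintype.card_fin]
    intro i _
    have hidx : (((idx u : Fin N) : ℕ) : ℤ) ≠ (((idx v : Fin N) : ℕ) : ℤ) := by
      intro h
      apply huv
      apply idx.injective
      apply Fin.ext
      exact_mod_cast h
    beta_reduce
    generalize e.symm i = p
    split_ifs with h1 h2 h2
    · exfalso
      rcases h1 with ⟨h1, h3 | h3⟩ <;> rcases h2 with ⟨_, h4 | h4⟩
      · exact huv (h3.trans h4.symm)
      · rw [h3, h4] at hadj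
        exact h1 hadj
      · rw [h3, h4] at hadj
        exact h1 hadj.symm
      · exact huv (h3.trans h4.symm)
    · omega
    · omega
    · omega
  · intro hd
    by_contra hadj
    have hlt : (univ.filter (fun i : Fin d => (if ¬ G.Adj (e.symm i).1 (e.symm i).2 ∧
        (u = (e.symm i).1 ∨ u = (e.symm i).2) then (0 : ℤ) else (((idx u : Fin N) : ℕ) : ℤ) + 1) ≠
        (if ¬ G.Adj (e.symm i).1 (e.symm i).2 ∧
        (v = (e.symm i).1 ∨ v = (e.symm i).2) then (0 : ℤ) else
          (((idx v : Fin N) : ℕ) : ℤ) + 1))).card < (univ : Finset (Fin d)).card := by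
      apply Finset.card_lt_card
      rw [Finset.ssubset_univ_iff]
      intro hcon
      have hmem : e (u, v) ∈ (univ : Finset (Fin d)) := Finset.mem_univ _
      rw [← hcon] at hmem
      have := (Finset.mem_filter.1 hmem).2
      apply this
      rw [Equiv.symm_apply_apply, if_pos ⟨hadj, Or.inl rfl⟩, if_pos ⟨hadj, Or.inr rfl⟩]
    rw [Finset.card_univ, Fintype.card_fin] at hlt
    exact absurd hd (not_le.2 hlt)

theorem hasRep_comap {V W : Type*} {G : SimpleGraph W} {t : ℕ} (e : V → W)
    (he : Function.Injective e) (h : HasRep G t) : HasRep (G.comap e) t := by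
  obtain ⟨d, f, hf⟩ := h
  refine ⟨d, fun v => f (e v), fun u v huv => ?_⟩
  exact hf (e u) (e v) (fun h => huv (he h))

theorem hasMaxDegree_comap {V W : Type*} {G : SimpleGraph W} {Δ : ℕ} (e : V ≃ W)
    (h : HasMaxDegree G Δ) : HasMaxDegree (G.comap e) Δ := by
  have key : ∀ v, ((G.comap e).neighborSet v).ncard = (G.neighborSet (e v)).ncard := by
    intro v
    have : G.neighborSet (e v) = e '' ((G.comap e).neighborSet v) := by
      ext w
      constructor
      · intro hw
        refine ⟨e.symm w, ?_, by simp⟩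
        change G.Adj (e v) (e (e.symm w))
        rw [Equiv.apply_symm_apply]
        exact hw
      · rintro ⟨x, hx, rfl⟩
        exact hx
    rw [this, Set.ncard_image_of_injective _ e.injective]
  refine ⟨fun v => ?_, ?_⟩
  · rw [key]
    exact h.1 _
  · obtain ⟨w, hw⟩ := h.2
    refine ⟨e.symm w, ?_⟩
    rw [key, Equiv.apply_symm_apply, hw]

/-- Every graph on `n` vertices with maximum degree `Δ` has a representation with threshold
`T n Δ`. -/
theorem hasRep_T {V : Type*} [Fintype V] {G : SimpleGraph V} {n Δ : ℕ}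
    (hV : Fintype.card V = n) (hG : HasMaxDegree G Δ) : HasRep G (T n Δ) := by
  classical
  have e : V ≃ Fin n := Fintype.equivFinOfCardEq hV
  have h1 : HasMaxDegree (G.comap e.symm) Δ := hasMaxDegree_comap e.symm hG
  have h2 : HasRep (G.comap e.symm) (tpd (G.comap e.symm)) := Nat.sInf_mem (exists_hasRep _)
  have h3 : tpd (G.comap e.symm) ≤ T n Δ := by
    refine le_csSup ?_ ⟨_, h1, rfl⟩
    have hfin : ({s | ∃ G : SimpleGraph (Fin n), HasMaxDegree G Δ ∧ tpd G = s}).Finite :=
      (Set.toFinite {G : SimpleGraph (Fin n) | HasMaxDegree G Δ}).image tpd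
    exact hfin.bddAbove
  have h4 := hasRep_comap e e.injective (h2.mono h3)
  have h5 : (G.comap e.symm).comap e = G := by
    ext u v
    simp
  rwa [h5] at h4

/-! ### The maximum degree of the graphs of the family -/

theorem gr_maxDegree {k m : ℕ} [NeZero k] [NeZero m] {R : Type}
    (σ : Fin k → Fin k → Equiv.Perm (Fin m)) : HasMaxDegree (Gr (R := R) σ) k := by
  have hL : ∀ a : Fin k × Fin m, ((Gr (R := R) σ).neighborSet (Sum.inl a)).ncard = k := by
    intro a
    have h1 : (Gr (R := R) σ).neighborSet (Sum.inl a) =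
        (fun j : Fin k => (Sum.inr (Sum.inl (j, σ a.1 j a.2)) : VT k m R)) '' Set.univ := by
      ext w
      constructor
      · intro hw
        rcases w with a' | b | r
        · exact absurd hw id
        · refine ⟨b.1, Set.mem_univ _, ?_⟩
          have hw' : σ a.1 b.1 a.2 = b.2 := hw
          change (Sum.inr (Sum.inl (b.1, σ a.1 b.1 a.2)) : VT k m R) = _
          rw [hw']
        · exact absurd hw id
      · rintro ⟨j, _, rfl⟩
        exact (rfl : σ a.1 j a.2 = σ a.1 j a.2)
    rw [h1, Set.ncard_image_of_injective, Set.ncard_univ, Nat.card_fin]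
    intro j j' h
    exact (Prod.mk.inj (Sum.inl_injective (Sum.inr_injective h))).1
  have hR : ∀ b : Fin k × Fin m,
      ((Gr (R := R) σ).neighborSet (Sum.inr (Sum.inl b))).ncard = k := by
    intro b
    have h1 : (Gr (R := R) σ).neighborSet (Sum.inr (Sum.inl b)) =
        (fun i : Fin k => (Sum.inl (i, (σ i b.1).symm b.2) : VT k m R)) '' Set.univ := by
      ext w
      constructor
      · intro hw
        rcases w with a | b' | r
        · refine ⟨a.1, Set.mem_univ _, ?_⟩
          have hw' : σ a.1 b.1 a.2 = b.2 := hw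
          change (Sum.inl (a.1, (σ a.1 b.1).symm b.2) : VT k m R) = _
          rw [← hw', Equiv.symm_apply_apply]
        · exact absurd hw id
        · exact absurd hw id
      · rintro ⟨i, _, rfl⟩
        exact (Equiv.apply_symm_apply (σ i b.1) b.2 : σ i b.1 ((σ i b.1).symm b.2) = b.2)
    rw [h1, Set.ncard_image_of_injective, Set.ncard_univ, Nat.card_fin]
    intro j j' h
    exact (Prod.mk.inj (Sum.inl_injective h)).1
  refine ⟨?_, ⟨Sum.inl (0, 0), hL _⟩⟩
  rintro (a | b | r)
  · exact (hL a).le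
  · exact (hR b).le
  · have h1 : (Gr (R := R) σ).neighborSet (Sum.inr (Sum.inr r)) = ∅ := by
      ext w
      constructor
      · intro hw
        exact absurd hw id
      · intro hw
        exact absurd hw id
    rw [h1, Set.ncard_empty]
    exact Nat.zero_le _

/-! ### Adding a vertex of large degree -/

/-- `G` with a new vertex joined to the vertices of `S`. -/
def addV {V : Type*} (G : SimpleGraph V) (S : Finset V) : SimpleGraph (Option V) where
  Adj x y := match x, y with
    | some u, some v => G.Adj u v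
    | none, some v => v ∈ S
    | some u, none => u ∈ S
    | none, none => False
  symm := ⟨by
    rintro (_ | u) (_ | v) h
    · exact h
    · exact h
    · exact h
    · exact (show G.Adj u v from h).symm⟩
  loopless := ⟨by
    rintro (_ | u) h
    · exact h
    · exact G.loopless.irrefl u h⟩

theorem addV_comap {V : Type*} (G : SimpleGraph V) (S : Finset V) :
    (addV G S).comap some = G := by
  ext u v
  exact Iff.rfl

theorem addV_maxDegree {V : Type*} [Finite V] {G : SimpleGraph V} {S : Finset V} {k Δ : ℕ}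
    (hG : HasMaxDegree G k) (hk : k < Δ) (hS : S.card = Δ) : HasMaxDegree (addV G S) Δ := by
  have h0 : ((addV G S).neighborSet none).ncard = Δ := by
    have h1 : (addV G S).neighborSet none = some '' (S : Set V) := by
      ext w
      rcases w with _ | w
      · constructor
        · intro hw
          exact absurd hw id
        · rintro ⟨x, _, hx⟩
          exact absurd hx (by simp)
      · constructor
        · intro hw
          exact ⟨w, hw, rfl⟩
        · rintro ⟨x, hx, hxw⟩
          rw [← Option.some_injective _ hxw]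
          exact hx
    rw [h1, Set.ncard_image_of_injective _ (Option.some_injective _), Set.ncard_coe_finset, hS]
  refine ⟨?_, ⟨none, h0⟩⟩
  rintro (_ | u)
  · exact h0.le
  · have h1 : (addV G S).neighborSet (some u) ⊆ some '' (G.neighborSet u) ∪ {none} := by
      intro w hw
      rcases w with _ | w
      · exact Or.inr rfl
      · exact Or.inl ⟨w, hw, rfl⟩
    calc ((addV G S).neighborSet (some u)).ncard
        ≤ (some '' (G.neighborSet u) ∪ {none}).ncard := Set.ncard_le_ncard h1 (Set.toFinite _)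
      _ ≤ (some '' (G.neighborSet u)).ncard + ({none} : Set (Option V)).ncard :=
          Set.ncard_union_le _ _
      _ = (G.neighborSet u).ncard + 1 := by
          rw [Set.ncard_image_of_injective _ (Option.some_injective _), Set.ncard_singleton]
      _ ≤ Δ := by
          have := hG.1 u
          omega

/-! ### The numerical core -/

theorem core {N k t : ℕ} (hk : 1 ≤ k) (hN : 4096 * k ≤ N)
    (H : ∀ σ : Fin k → Fin k → Equiv.Perm (Fin (2 ^ (Nat.log 2 ((N - 1) / (2 * k))))),
      HasRep (Gr (R := Fin (N - 2 * k * 2 ^ (Nat.log 2 ((N - 1) / (2 * k))))) σ) t) :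
    (k : ℝ) * Real.log (N / k) / (200 * Real.log (k * Real.log (N / k) + 2)) ≤ t := by
  have : NeZero k := ⟨by omega⟩
  set a := Nat.log 2 ((N - 1) / (2 * k)) with ha
  have hdiv : (N - 1) / (2 * k) ≠ 0 := by
    have : 1 ≤ (N - 1) / (2 * k) := by
      rw [Nat.le_div_iff_mul_le (by omega)]
      omega
    omega
  have h1 : 2 ^ a ≤ (N - 1) / (2 * k) := Nat.pow_log_le_self 2 hdiv
  have h2 : (N - 1) / (2 * k) < 2 ^ (a + 1) := Nat.lt_pow_succ_log_self (by norm_num) _
  have h3 : 2 * k * 2 ^ a ≤ N - 1 := by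
    calc 2 * k * 2 ^ a ≤ 2 * k * ((N - 1) / (2 * k)) := Nat.mul_le_mul_left _ h1
      _ ≤ N - 1 := Nat.mul_div_le _ _
  have h4 : N ≤ k * 2 ^ (a + 2) := by
    have h5 : N - 1 < 2 ^ (a + 1) * (2 * k) := (Nat.div_lt_iff_lt_mul (by omega)).1 h2
    have h6 : 2 ^ (a + 1) * (2 * k) = k * 2 ^ (a + 2) := by ring
    omega
  have ha10 : 10 ≤ a := by
    have h5 : 4096 * k ≤ k * 2 ^ (a + 2) := hN.trans h4
    have h6 : 4096 ≤ 2 ^ (a + 2) := by
      have : k * 4096 ≤ k * 2 ^ (a + 2) := by rwa [mul_comm k 4096]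
      exact Nat.le_of_mul_le_mul_left this (by omega)
    have h7 : (2 : ℕ) ^ 12 ≤ 2 ^ (a + 2) := by norm_num; exact h6
    have := (Nat.pow_le_pow_iff_right (by norm_num : 1 < 2)).1 h7
    omega
  have hR : 0 < N - 2 * k * 2 ^ a := by omega
  have ht : 1 ≤ t := by
    by_contra hcon
    have ht0 : t = 0 := by omega
    obtain ⟨d, f, hf⟩ := H (fun _ _ => Equiv.refl _)
    have hpos : 0 < 2 ^ a := by positivity
    have h5 := (hf (Sum.inl (⟨0, by omega⟩, ⟨0, hpos⟩)) (Sum.inr (Sum.inr ⟨0, hR⟩))
      (by simp)).2 (by omega)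
    exact h5
  have h5 := count_num (k := k) (a := a) (R := Fin (N - 2 * k * 2 ^ a)) ⟨0, hR⟩ (by omega) t ht H
  -- real arithmetic
  have hkR : (1 : ℝ) ≤ k := by exact_mod_cast hk
  have htR : (1 : ℝ) ≤ t := by exact_mod_cast ht
  have hNk : (0 : ℝ) < N / k := by
    have : (0 : ℝ) < N := by
      have : 0 < N := by omega
      exact_mod_cast this
    positivity
  set L := Real.log (N / k) with hL
  have hln2 : 0 < Real.log 2 := Real.log_pos (by norm_num)
  have hln2' : Real.log 2 > 0.69 := by
    have := Real.log_two_gt_d9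
    linarith
  have hLle : L ≤ (a + 2) * Real.log 2 := by
    have h6 : (N : ℝ) / k ≤ 2 ^ (a + 2) := by
      rw [div_le_iff₀ (by linarith)]
      have : (N : ℝ) ≤ k * 2 ^ (a + 2) := by exact_mod_cast h4
      linarith
    calc L ≤ Real.log (2 ^ (a + 2)) := Real.log_le_log hNk h6
      _ = (a + 2) * Real.log 2 := by
        rw [Real.log_pow]
        push_cast
        ring
  have hL0 : 0 < L := by
    apply Real.log_pos
    rw [lt_div_iff₀ (by linarith)]
    have : (4096 : ℝ) * k ≤ N := by exact_mod_cast hN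
    linarith
  have hlogt : (Nat.log 2 t : ℝ) * Real.log 2 ≤ Real.log t := by
    have h6 : (2 : ℝ) ^ (Nat.log 2 t) ≤ t := by
      exact_mod_cast Nat.pow_log_le_self 2 (by omega : t ≠ 0)
    calc (Nat.log 2 t : ℝ) * Real.log 2 = Real.log (2 ^ (Nat.log 2 t)) := by
          rw [Real.log_pow]
      _ ≤ _ := Real.log_le_log (by positivity) h6
  have h6 : (3 : ℝ) * a * k ≤ 12 * k + 32 * t * (7 + 2 * Nat.log 2 t) := by
    have h7 : 3 * a * k ≤ 12 * k + 32 * t * (7 + 2 * Nat.log 2 t) :=
      h5.trans (Nat.add_le_add_left (Nat.mul_le_mul_right _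
        (Nat.mul_le_mul_left _ (Nat.sub_le _ _))) _)
    exact_mod_cast h7
  have haR : (10 : ℝ) ≤ a := by exact_mod_cast ha10
  have h7 : (3 / 2 : ℝ) * (a + 2) * k ≤ 32 * t * (7 + 2 * Nat.log 2 t) := by nlinarith
  have h8 : (3 / 2 : ℝ) * (k * L) ≤ 32 * t * (7 * Real.log 2 + 2 * Real.log t) := by
    calc (3 / 2 : ℝ) * (k * L) ≤ (3 / 2) * (k * ((a + 2) * Real.log 2)) := by
          have : (k : ℝ) * L ≤ k * ((a + 2) * Real.log 2) :=
            mul_le_mul_of_nonneg_left hLle (by linarith)
          linarith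
      _ = ((3 / 2 : ℝ) * (a + 2) * k) * Real.log 2 := by ring
      _ ≤ (32 * t * (7 + 2 * Nat.log 2 t)) * Real.log 2 :=
          mul_le_mul_of_nonneg_right h7 hln2.le
      _ = 32 * t * (7 * Real.log 2 + 2 * (Nat.log 2 t * Real.log 2)) := by ring
      _ ≤ _ := by
          apply mul_le_mul_of_nonneg_left _ (by linarith)
          linarith
  set Y := (k : ℝ) * L with hY
  have hY0 : 0 < Y := by positivity
  set M := Real.log (Y + 2) with hM
  have hM2 : Real.log 2 ≤ M := Real.log_le_log (by norm_num) (by linarith)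
  have hM0 : 0 < M := by linarith
  rw [div_le_iff₀ (by positivity)]
  by_contra hcon
  push Not at hcon
  have h9 : (t : ℝ) ≤ Y := by nlinarith
  have h10 : Real.log t ≤ M := Real.log_le_log (by linarith) (by linarith)
  have h11 : (32 : ℝ) * t * (7 * Real.log 2 + 2 * Real.log t) ≤ 32 * t * (9 * M) := by
    apply mul_le_mul_of_nonneg_left _ (by linarith)
    linarith
  nlinarith

theorem dense_real {N k : ℝ} (hkR : 1 ≤ k) (hk2 : 4096 * k ≤ N) (hk3 : N ≤ 8192 * k) :
    (N + 1) / (1000000 * Real.log (N + 1)) ≤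
      k * Real.log (N / k) / (200 * Real.log (k * Real.log (N / k) + 2)) := by
  have hNR : (4096 : ℝ) ≤ N := by linarith
  have h3 : (4096 : ℝ) ≤ N / k := by
    rw [le_div_iff₀ (by linarith)]
    exact hk2
  have h4 : N / k ≤ 8192 := by
    rw [div_le_iff₀ (by linarith)]
    exact hk3
  have hln2 : Real.log 2 > 0.69 := by
    have := Real.log_two_gt_d9
    linarith
  have hln2' : Real.log 2 < 0.7 := by
    have := Real.log_two_lt_d9
    linarith
  have h5 : 8 ≤ Real.log (N / k) := by
    have h12 : (12 : ℝ) * Real.log 2 = Real.log ((2 : ℝ) ^ 12) := by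
      rw [Real.log_pow]
      norm_num
    have h13 : Real.log ((2 : ℝ) ^ 12) ≤ Real.log (N / k) :=
      Real.log_le_log (by positivity) (by norm_num; exact h3)
    rw [← h12] at h13
    linarith
  have h6 : Real.log (N / k) ≤ 10 := by
    have h12 : (13 : ℝ) * Real.log 2 = Real.log ((2 : ℝ) ^ 13) := by
      rw [Real.log_pow]
      norm_num
    have h13 : Real.log (N / k) ≤ Real.log ((2 : ℝ) ^ 13) :=
      Real.log_le_log (by linarith) (by norm_num; exact h4)
    rw [← h12] at h13
    linarith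
  generalize Real.log (N / k) = L at *
  have h7 : N / 1024 ≤ k * L := by nlinarith
  have h8 : k * L + 2 ≤ N + 1 := by nlinarith
  have h7' : 0 < k * L := by positivity
  have h9 : Real.log (k * L + 2) ≤ Real.log (N + 1) := Real.log_le_log (by linarith) h8
  have h10 : 0 < Real.log (k * L + 2) := Real.log_pos (by linarith)
  have h11 : 0 < Real.log (N + 1) := lt_of_lt_of_le h10 h9
  rw [div_le_div_iff₀ (by positivity) (by positivity)]
  have h12 : (N + 1) * 200 ≤ (k * L) * 1000000 := by linarith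
  calc (N + 1) * (200 * Real.log (k * L + 2))
      = ((N + 1) * 200) * Real.log (k * L + 2) := by ring
    _ ≤ ((k * L) * 1000000) * Real.log (k * L + 2) :=
        mul_le_mul_of_nonneg_right h12 h10.le
    _ ≤ ((k * L) * 1000000) * Real.log (N + 1) := by
        apply mul_le_mul_of_nonneg_left h9
        positivity
    _ = _ := by ring

/-- The dense case: `T n Δ ≥ n / (10^6 ln n)` for `n < 4096 Δ`. -/
theorem dense {n Δ : ℕ} (hn : 4097 ≤ n) (h1 : n < 4096 * Δ) (h2 : Δ < n) :
    (n : ℝ) / (1000000 * Real.log n) ≤ T n Δ := by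
  classical
  obtain ⟨N, rfl⟩ : ∃ N, n = N + 1 := ⟨n - 1, by omega⟩
  obtain ⟨k, hk⟩ : ∃ k, k = N / 4096 := ⟨_, rfl⟩
  have hk1 : 1 ≤ k := by
    rw [hk, Nat.le_div_iff_mul_le (by norm_num)]
    omega
  have hk2 : 4096 * k ≤ N := by
    rw [hk]
    exact Nat.mul_div_le _ _
  have hk3 : N < 4096 * (k + 1) := by
    have := Nat.lt_mul_div_succ N (by norm_num : 0 < 4096)
    rwa [← hk] at this
  have hkΔ : k < Δ := by omega
  have hNk2 : N ≤ 8192 * k := by omega
  have : NeZero k := ⟨by omega⟩
  have hcore := core (t := T (N + 1) Δ) hk1 hk2 (by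
    have hdiv : (N - 1) / (2 * k) ≠ 0 := by
      have : 1 ≤ (N - 1) / (2 * k) := by
        rw [Nat.le_div_iff_mul_le (by omega)]
        omega
      omega
    have h3 : 2 * k * 2 ^ (Nat.log 2 ((N - 1) / (2 * k))) ≤ N - 1 := by
      calc 2 * k * 2 ^ (Nat.log 2 ((N - 1) / (2 * k))) ≤ 2 * k * ((N - 1) / (2 * k)) :=
            Nat.mul_le_mul_left _ (Nat.pow_log_le_self 2 hdiv)
        _ ≤ N - 1 := Nat.mul_div_le _ _
    set a := Nat.log 2 ((N - 1) / (2 * k)) with ha
    intro σ
    have hcard : Fintype.card (VT k (2 ^ a) (Fin (N - 2 * k * 2 ^ a))) = N := by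
      simp only [VT, Fintype.card_sum, Fintype.card_prod, Fintype.card_fin]
      have : 2 * k * 2 ^ a = k * 2 ^ a + k * 2 ^ a := by ring
      omega
    obtain ⟨S, _, hS⟩ := Finset.exists_subset_card_eq
      (s := (univ : Finset (VT k (2 ^ a) (Fin (N - 2 * k * 2 ^ a))))) (n := Δ) (by
        rw [Finset.card_univ, hcard]
        omega)
    have h4 := addV_maxDegree (gr_maxDegree (R := Fin (N - 2 * k * 2 ^ a)) σ) hkΔ hS
    have h5 := hasRep_T (n := N + 1) (by rw [Fintype.card_option, hcard]) h4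
    have h6 := hasRep_comap some (Option.some_injective _) h5
    rwa [addV_comap] at h6)
  have hkR : (1 : ℝ) ≤ k := by exact_mod_cast hk1
  have h3 : (4096 : ℝ) * k ≤ N := by exact_mod_cast hk2
  have h4 : (N : ℝ) ≤ 8192 * k := by exact_mod_cast hNk2
  have h5 := dense_real hkR h3 h4
  have h6 : ((N + 1 : ℕ) : ℝ) = (N : ℝ) + 1 := by push_cast; ring
  rw [h6]
  exact h5.trans hcore

/-- The sparse case. -/
theorem sparse {n Δ : ℕ} (h1 : 1 ≤ Δ) (h2 : 4096 * Δ ≤ n) :
    (Δ : ℝ) * Real.log (n / Δ) / (200 * Real.log (Δ * Real.log (n / Δ) + 2)) ≤ T n Δ := by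
  apply core h1 h2
  intro σ
  have : NeZero Δ := ⟨by omega⟩
  have hdiv : (n - 1) / (2 * Δ) ≠ 0 := by
    have : 1 ≤ (n - 1) / (2 * Δ) := by
      rw [Nat.le_div_iff_mul_le (by omega)]
      omega
    omega
  have h3 : 2 * Δ * 2 ^ (Nat.log 2 ((n - 1) / (2 * Δ))) ≤ n - 1 := by
    calc 2 * Δ * 2 ^ (Nat.log 2 ((n - 1) / (2 * Δ))) ≤ 2 * Δ * ((n - 1) / (2 * Δ)) :=
          Nat.mul_le_mul_left _ (Nat.pow_log_le_self 2 hdiv)
      _ ≤ n - 1 := Nat.mul_div_le _ _
  refine hasRep_T ?_ (gr_maxDegree σ)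
  set a := Nat.log 2 ((n - 1) / (2 * Δ)) with ha
  simp only [VT, Fintype.card_sum, Fintype.card_prod, Fintype.card_fin]
  have : 2 * Δ * 2 ^ a = Δ * 2 ^ a + Δ * 2 ^ a := by ring
  omega

end Pool.Agent.Tpd
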